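import Pool.Agent.TH316.AT.Ex
import Pool.Agent.TH325.AT.Fsol

/-!
# EX-MX: the gradient bound for the truncated Parisi equation
-/

set_option autoImplicit false

open MeasureTheory ProbabilityTheory Set Filter Topology

namespace Pool.Agent.TH360.AT

open Pool.TH198.AT Pool.TH316.AT Pool.TH325.AT

theorem hub_eq (u : ℝ) : hub u = (min |u| 1) ^ 2 + 2 * (|u| - min |u| 1) := by
  unfold hub
  by_cases h : |u| ≤ 1
  · rw [if_pos h, min_eq_left h, sq_abs]
    ring
  · rw [if_neg h, min_eq_right (le_of_not_ge h)]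
    ring

theorem hub_cont : Continuous hub := by
  have h : hub = fun u => (min |u| 1) ^ 2 + 2 * (|u| - min |u| 1) := funext hub_eq
  rw [h]
  fun_prop

theorem hub_nn (u : ℝ) : 0 ≤ hub u := by
  rw [hub_eq]
  have := min_le_left |u| 1
  have := sq_nonneg (min |u| 1)
  linarith

theorem hub_le (u : ℝ) : hub u ≤ 1 + 2 * |u| := by
  rw [hub_eq]
  have h1 : 0 ≤ min |u| 1 := le_min (abs_nonneg _) zero_le_one
  have h2 := min_le_right |u| 1
  nlinarith

theorem hub_aux {a b : ℝ} (hb : 0 ≤ b) (hab : b ≤ a) :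
    0 ≤ ((min a 1) ^ 2 + 2 * (a - min a 1)) - ((min b 1) ^ 2 + 2 * (b - min b 1)) ∧
    ((min a 1) ^ 2 + 2 * (a - min a 1)) - ((min b 1) ^ 2 + 2 * (b - min b 1)) ≤ 2 * (a - b) := by
  rcases le_total a 1 with h1 | h1
  · rw [min_eq_left h1, min_eq_left (hab.trans h1)]
    constructor <;> nlinarith
  · rw [min_eq_right h1]
    rcases le_total b 1 with h2 | h2
    · rw [min_eq_left h2]
      constructor <;> nlinarith
    · rw [min_eq_right h2]
      constructor <;> nlinarith

theorem hub_lip (u v : ℝ) : |hub u - hub v| ≤ 2 * |u - v| := by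
  rw [hub_eq, hub_eq]
  have h0 := abs_abs_sub_abs_le_abs_sub u v
  rcases le_total |v| |u| with h | h
  · obtain ⟨h1, h2⟩ := hub_aux (abs_nonneg v) h
    rw [abs_of_nonneg h1]
    rw [abs_of_nonneg (by linarith)] at h0
    linarith
  · obtain ⟨h1, h2⟩ := hub_aux (abs_nonneg u) h
    rw [abs_sub_comm, abs_of_nonneg h1]
    rw [abs_of_nonpos (by linarith)] at h0
    linarith

theorem lip {F F' : ℝ → ℝ} {C : ℝ} (h : ∀ x, HasDerivAt F (F' x) x) (hC : ∀ x, |F' x| ≤ C)
    (x y : ℝ) : |F y - F x| ≤ C * |y - x| := by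
  have := Convex.norm_image_sub_le_of_norm_hasDerivWithin_le (s := univ) (f := F) (f' := F')
    (C := C) (fun x _ => (h x).hasDerivWithinAt) (fun x _ => by rw [Real.norm_eq_abs]; exact hC x)
    convex_univ (mem_univ x) (mem_univ y)
  simpa [Real.norm_eq_abs] using this

theorem lc_deriv (x : ℝ) : HasDerivAt (fun x => Real.log (Real.cosh x)) (Real.tanh x) x := by
  have h := (Real.hasDerivAt_cosh x).log (Real.cosh_pos x).ne'
  rw [Real.tanh_eq_sinh_div_cosh]
  exact h

theorem tanh_le (x : ℝ) : |Real.tanh x| ≤ 1 := by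
  rw [Real.tanh_eq_sinh_div_cosh, abs_div, abs_of_pos (Real.cosh_pos x),
    div_le_one (Real.cosh_pos x)]
  refine abs_le_of_sq_le_sq ?_ (Real.cosh_pos x).le
  have := Real.cosh_sq x
  linarith

theorem t_MX (hM : St_MAX) : St_MX := by
  intro β C ζ f W Z hβ hζ hd hW hZ heq
  obtain ⟨hWc, hWb⟩ := hW
  obtain ⟨hZc, hZb⟩ := hZ
  have hC0 : 0 ≤ C := (abs_nonneg _).trans (hWb 0 0)
  -- the equation in the form of the Parisi equation
  set g : ℝ → ℝ → ℝ := fun t x => √(hub (W t x)) with hg
  have hg2 : ∀ t x, g t x ^ 2 = hub (W t x) := fun t x => Real.sq_sqrt (hub_nn _)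
  have hgc : ContinuousOn (fun p : ℝ × ℝ => g p.1 p.2) (Icc 0 1 ×ˢ univ) :=
    (Real.continuous_sqrt.comp (hub_cont.comp hWc)).continuousOn
  have hZc' : ContinuousOn (fun p : ℝ × ℝ => Z p.1 p.2) (Icc 0 1 ×ˢ univ) := hZc.continuousOn
  have heq' : ∀ t ∈ Icc (0 : ℝ) 1, ∀ x, f t x =
      Real.log (Real.cosh x) + ∫ r in t..1, β ^ 2 * (Z r x + ζ r * g r x ^ 2) := by
    intro t ht x
    rw [heq t ht x]
    simp only [hg2]
  have hb : ∀ t ∈ Icc (0 : ℝ) 1, ∀ x, |g t x| ≤ 1 + C ∧ |Z t x| ≤ 1 + C := by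
    intro t _ x
    refine ⟨?_, (hZb t x).trans (by linarith)⟩
    rw [hg, abs_of_nonneg (Real.sqrt_nonneg _)]
    apply Real.sqrt_le_iff.2
    refine ⟨by linarith, ?_⟩
    have h1 := hub_le (W t x)
    have h2 := hWb t x
    nlinarith
  -- continuity of f
  have hfc : ContinuousOn (fun p : ℝ × ℝ => f p.1 p.2) (Icc 0 1 ×ˢ univ) := by
    have hK : 0 ≤ β ^ 2 * ((1 + C) + (1 + C) ^ 2) := by positivity
    refine continuousOn_prod_of_continuousOn_lipschitzOnWith (fun p : ℝ × ℝ => f p.1 p.2)
      ⟨β ^ 2 * ((1 + C) + (1 + C) ^ 2), hK⟩ ?_ ?_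
    · intro t ht
      exact fun y _ => ((hd t ht y).1.continuousAt).continuousWithinAt
    · intro y _
      refine LipschitzOnWith.of_dist_le_mul fun s hs t ht => ?_
      rw [Real.dist_eq, Real.dist_eq]
      exact sol_lip hζ hgc hZc' hb heq' y hs ht
  have hlip : ∀ t ∈ Icc (0 : ℝ) 1, ∀ x y, |f t y - f t x| ≤ C * |y - x| :=
    fun t ht x y => lip (fun x => (hd t ht x).1) (fun x => hWb t x) x y
  have hf1 : ∀ x, f 1 x = Real.log (Real.cosh x) := by
    intro x
    rw [heq 1 ⟨zero_le_one, le_rfl⟩ x, intervalIntegral.integral_same, add_zero]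
  have hright : ∀ t ∈ Ico (0 : ℝ) 1, ∀ y, HasDerivWithinAt (fun τ => f τ y)
      (-(β ^ 2 * (Z t y + ζ t * hub (W t y)))) (Ici t) t := by
    intro t ht y
    have h := sol_right hζ hgc hZc' heq' y ht
    unfold gi at h
    rw [rho_eq ⟨ht.1, ht.2.le⟩, hg2] at h
    exact h
  -- the maximum principle
  have key : ∀ s : ℝ, |s| = 1 → ∀ h : ℝ, 0 < h → ∀ t ∈ Icc (0 : ℝ) 1, ∀ x,
      0 ≤ h - s * (f t (x + h) - f t x) := by
    intro s hs h hh t ht x
    have hs' : ∀ a : ℝ, |s * a| = |a| := fun a => by rw [abs_mul, hs, one_mul]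
    refine hM (2 * β ^ 2) 0 1 (2 * β ^ 2 + C * h)
      (fun t x _ => h - s * (f t (x + h) - f t x))
      (fun t x _ => s * (β ^ 2 * ((Z t (x + h) - Z t x) +
        ζ t * (hub (W t (x + h)) - hub (W t x)))))
      (fun t x _ => -(s * (W t (x + h) - W t x)))
      (fun t x _ => -(s * (Z t (x + h) - Z t x)))
      (fun t x _ => -(s * (W t (x + h) - W t x)))
      (fun _ _ _ => 0)
      (fun t x _ => β ^ 2 * ζ t * ((hub (W t (x + h)) - hub (W t x)) / (W t (x + h) - W t x)))
      (fun _ _ _ => 0) (by positivity) zero_le_one ?_ ?_ ?_ ?_ t ht x 0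
    · -- continuity
      have h1 : ContinuousOn (fun p : ℝ × ℝ × ℝ => f p.1 (p.2.1 + h)) (Icc 0 1 ×ˢ univ) :=
        ContinuousOn.comp (g := fun p : ℝ × ℝ => f p.1 p.2)
          (f := fun p : ℝ × ℝ × ℝ => (p.1, p.2.1 + h)) hfc (by fun_prop)
          (fun p hp => ⟨hp.1, mem_univ _⟩)
      have h2 : ContinuousOn (fun p : ℝ × ℝ × ℝ => f p.1 p.2.1) (Icc 0 1 ×ˢ univ) :=
        ContinuousOn.comp (g := fun p : ℝ × ℝ => f p.1 p.2)
          (f := fun p : ℝ × ℝ × ℝ => (p.1, p.2.1)) hfc (by fun_prop)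
          (fun p hp => ⟨hp.1, mem_univ _⟩)
      exact continuousOn_const.sub (continuousOn_const.mul (h1.sub h2))
    · intro t ht x y
      have ht' : t ∈ Icc (0 : ℝ) 1 := ⟨ht.1, ht.2.le⟩
      have hsh : ∀ a : ℝ, HasDerivAt (fun u : ℝ => a + u) 1 0 := fun a => by
        simpa using (hasDerivAt_id (0 : ℝ)).const_add a
      refine ⟨?_, ?_, ?_, ?_, ?_, ?_, ?_, ?_⟩
      · have h1 := (((hright t ht (x + h)).sub (hright t ht x)).const_mul s).const_sub h
        refine h1.congr_deriv ?_
        ring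
      · have e1 : HasDerivAt (fun u => f t (x + u + h)) (W t (x + h)) 0 := by
          have h3 : HasDerivAt (fun u : ℝ => x + u + h) 1 0 := (hsh x).add_const h
          have h4 : HasDerivAt (f t) (W t (x + 0 + h)) (x + 0 + h) := (hd t ht' _).1
          have h5 : HasDerivAt (fun u : ℝ => f t (x + u + h)) (W t (x + 0 + h) * 1) 0 :=
            h4.comp (0 : ℝ) h3
          rw [add_zero, mul_one] at h5
          exact h5
        have e2 : HasDerivAt (fun u => f t (x + u)) (W t x) 0 := by
          have h4 : HasDerivAt (f t) (W t (x + 0)) (x + 0) := (hd t ht' _).1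
          have h5 : HasDerivAt (fun u : ℝ => f t (x + u)) (W t (x + 0) * 1) 0 :=
            h4.comp (0 : ℝ) (hsh x)
          rw [add_zero, mul_one] at h5
          exact h5
        exact ((e1.sub e2).const_mul s).const_sub h
      · have e1 : HasDerivAt (fun u => W t (x + u + h)) (Z t (x + h)) 0 := by
          have h3 : HasDerivAt (fun u : ℝ => x + u + h) 1 0 := (hsh x).add_const h
          have h4 : HasDerivAt (W t) (Z t (x + 0 + h)) (x + 0 + h) := (hd t ht' _).2
          have h5 : HasDerivAt (fun u : ℝ => W t (x + u + h)) (Z t (x + 0 + h) * 1) 0 :=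
            h4.comp (0 : ℝ) h3
          rw [add_zero, mul_one] at h5
          exact h5
        have e2 : HasDerivAt (fun u => W t (x + u)) (Z t x) 0 := by
          have h4 : HasDerivAt (W t) (Z t (x + 0)) (x + 0) := (hd t ht' _).2
          have h5 : HasDerivAt (fun u : ℝ => W t (x + u)) (Z t (x + 0) * 1) 0 :=
            h4.comp (0 : ℝ) (hsh x)
          rw [add_zero, mul_one] at h5
          exact h5
        exact ((e1.sub e2).const_mul s).neg
      · have e1 : HasDerivAt (fun u => f t (u + h)) (W t (x + h)) x := by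
          have h3 : HasDerivAt (fun u : ℝ => u + h) 1 x := (hasDerivAt_id x).add_const h
          have h5 : HasDerivAt (fun u : ℝ => f t (u + h)) (W t (x + h) * 1) x :=
            ((hd t ht' (x + h)).1).comp x h3
          rw [mul_one] at h5
          exact h5
        have e2 : HasDerivAt (fun u => f t u) (W t x) x := (hd t ht' x).1
        exact ((e1.sub e2).const_mul s).const_sub h
      · exact hasDerivAt_const _ _
      · have hz := hζ.2.1 t ht'
        have h1 : |(hub (W t (x + h)) - hub (W t x)) / (W t (x + h) - W t x)| ≤ 2 := by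
          by_cases hw : W t (x + h) - W t x = 0
          · rw [hw, div_zero, abs_zero]
            norm_num
          · rw [abs_div, div_le_iff₀ (abs_pos.2 hw)]
            exact hub_lip _ _
        have h2 : 0 ≤ β ^ 2 * ζ t := mul_nonneg (sq_nonneg _) hz.1
        have h3 : β ^ 2 * ζ t ≤ β ^ 2 := mul_le_of_le_one_right (sq_nonneg _) hz.2
        have h4 : 0 ≤ C * h := mul_nonneg hC0 hh.le
        rw [abs_mul, abs_of_nonneg h2]
        calc β ^ 2 * ζ t * |(hub (W t (x + h)) - hub (W t x)) / (W t (x + h) - W t x)|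
            ≤ β ^ 2 * 2 := mul_le_mul h3 h1 (abs_nonneg _) (sq_nonneg _)
          _ ≤ 2 * β ^ 2 + C * h := by linarith
      · rw [abs_zero]
        have h4 : 0 ≤ C * h := mul_nonneg hC0 hh.le
        positivity
      · have h1 : (hub (W t (x + h)) - hub (W t x)) / (W t (x + h) - W t x) *
            (W t (x + h) - W t x) = hub (W t (x + h)) - hub (W t x) := by
          by_cases hw : W t (x + h) - W t x = 0
          · have hw' : W t (x + h) = W t x := sub_eq_zero.1 hw
            rw [hw', sub_self, sub_self, mul_zero]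
          · exact div_mul_cancel₀ _ hw
        refine le_of_eq ?_
        have h2 : β ^ 2 * ζ t * ((hub (W t (x + h)) - hub (W t x)) / (W t (x + h) - W t x)) *
            -(s * (W t (x + h) - W t x)) = -(s * (β ^ 2 * ζ t *
              ((hub (W t (x + h)) - hub (W t x)) / (W t (x + h) - W t x) *
                (W t (x + h) - W t x)))) := by ring
        rw [h2, h1]
        ring
    · intro x y
      rw [hf1, hf1]
      have h1 := lip lc_deriv tanh_le x (x + h)
      rw [one_mul, add_sub_cancel_left, abs_of_pos hh] at h1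
      have h2 := (abs_le.1 ((hs' _).le.trans h1)).2
      linarith
    · intro t ht x y
      have h1 := hlip t ht x (x + h)
      rw [add_sub_cancel_left, abs_of_pos hh] at h1
      have h2 := (abs_le.1 ((hs' _).le.trans h1)).2
      have h3 : 0 ≤ C * h := mul_nonneg hC0 hh.le
      have h4 : 0 ≤ (2 * β ^ 2 + C * h) * (|x| + |y|) := by positivity
      have h5 : 0 ≤ 2 * β ^ 2 := by positivity
      nlinarith
  intro t ht x
  have h1 : ∀ y, |f t y - f t x| ≤ |y - x| := by
    have h2 : ∀ a h, 0 < h → |f t (a + h) - f t a| ≤ h := by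
      intro a h hh
      have e1 := key 1 (by norm_num) h hh t ht a
      have e2 := key (-1) (by norm_num) h hh t ht a
      rw [abs_le]
      constructor <;> linarith
    intro y
    rcases lt_trichotomy y x with hyx | hyx | hyx
    · have := h2 y (x - y) (by linarith)
      rw [add_sub_cancel] at this
      rw [abs_sub_comm, abs_sub_comm y x, abs_of_pos (by linarith : 0 < x - y)]
      exact this
    · rw [hyx]
      simp
    · have := h2 x (y - x) (by linarith)
      rw [add_sub_cancel] at this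
      rw [abs_of_pos (by linarith : 0 < y - x)]
      exact this
  have h3 := HasDerivAt.le_of_lip' (hd t ht x).1 zero_le_one (C := 1)
    (Eventually.of_forall fun y => by
      rw [Real.norm_eq_abs, Real.norm_eq_abs, one_mul]
      exact h1 y)
  rwa [Real.norm_eq_abs] at h3

end Pool.Agent.TH360.AT
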